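import Pool.Agent.H67.MU.Main

/-!
# An upper bound in Malle's question for every transitive group other than the symmetric group

Let `k` be a number field, `n ≥ 4`, and `G` a transitive subgroup of the symmetric group `S_n`,
different from `S_n`; if `n ≤ 8` let `G` be primitive. With `ind(G)` the least value of
`n - (number of cycles of g)` for `g ≠ 1` in `G`, the number of degree `n` extensions of `k` (up to
`k`-isomorphism) with Galois group `G` and relative discriminant of norm at most `B` is at most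
`C * B ^ ((n ^ 2 - 4 n + 2) / (4 (n - 1)) + 3 / (2 ind(G)) + ε)`.
-/

set_option autoImplicit false

namespace Pool.Agent.Results.MP_a3214d_nt.NonSymmetricUpperBound

theorem result (k : Type) [Field k] [NumberField k] (n : ℕ) (hn : 4 ≤ n)
    (G : Subgroup (Equiv.Perm (Fin n))) (htr : MulAction.IsPretransitive G (Fin n))
    (hp : MulAction.IsPreprimitive G (Fin n) ∨ 9 ≤ n) (hne : G ≠ ⊤) (ε : ℝ) (hε : 0 < ε) :
    ∃ C : ℝ, ∀ B : ℝ, 1 ≤ B →
      ((Nat.card (Quot (fun L L' : {M : IntermediateField k (AlgebraicClosure k) //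
            Module.finrank k M = n ∧
            (∃ e : (M →ₐ[k] AlgebraicClosure k) ≃ Fin n, ∀ π : Equiv.Perm (Fin n),
               π ∈ G ↔ ∃ σ : AlgebraicClosure k ≃ₐ[k] AlgebraicClosure k,
                 ∀ φ : M →ₐ[k] AlgebraicClosure k, e (σ.toAlgHom.comp φ) = π (e φ)) ∧
            ∃ h : NumberField M,
              ((|@NumberField.discr M _ h| : ℤ) : ℝ) ≤ B * ((|NumberField.discr k| : ℤ) : ℝ) ^ n}
          => Nonempty (L.1 ≃ₐ[k] L'.1))) : ℕ) : ℝ) ≤
        C * B ^ (((n : ℝ) ^ 2 - 4 * n + 2) / (4 * (n - 1)) +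
          3 / (2 * ((sInf {j : ℕ | ∃ g ∈ G, g ≠ 1 ∧
            g.support.card - Multiset.card g.cycleType = j} : ℕ) : ℝ)) + ε) :=
  Pool.Agent.H67.MU.main3 k n hn G htr hp hne ε hε

end Pool.Agent.Results.MP_a3214d_nt.NonSymmetricUpperBound
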